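import Pool.Agent.Q23.SP.Quad
import Pool.Agent.Q23.CN.Imag
import Pool.Agent.Q23.CN.Four

/-!
# The argument of the quadratic residue product on the unit circle
-/

set_option autoImplicit false
set_option linter.unusedSectionVars false
set_option linter.unusedVariables false

namespace Pool.Agent.Q23.TW

open Finset Complex
open Pool.Agent.Q23.SP

lemma exp_sub (φ θ : ℝ) : exp ((φ : ℂ) * I) - exp ((θ : ℂ) * I)
    = exp ((((φ + θ) / 2 : ℝ) : ℂ) * I) * (I * ((2 * Real.sin ((φ - θ) / 2) : ℝ) : ℂ)) := by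
  have h1 : (φ : ℂ) * I = (((φ + θ) / 2 : ℝ) : ℂ) * I + (((φ - θ) / 2 : ℝ) : ℂ) * I := by
    push_cast; ring
  have h2 : (θ : ℂ) * I = (((φ + θ) / 2 : ℝ) : ℂ) * I - (((φ - θ) / 2 : ℝ) : ℂ) * I := by
    push_cast; ring
  rw [h1, h2, exp_add, sub_eq_add_neg (((((φ + θ) / 2 : ℝ) : ℂ)) * I), exp_add, ← mul_sub]
  congr 1
  have h3 : -((((φ - θ) / 2 : ℝ) : ℂ) * I) = ((-((φ - θ) / 2) : ℝ) : ℂ) * I := by push_cast; ring
  rw [h3, exp_mul_I, exp_mul_I, ← ofReal_cos, ← ofReal_sin, ← ofReal_cos, ← ofReal_sin,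
    Real.cos_neg, Real.sin_neg]
  push_cast
  ring

lemma prod_pos_neg {ι : Type*} (Q : Finset ι) (f : ι → ℝ) (P : ι → Prop) [DecidablePred P]
    (h1 : ∀ r ∈ Q, P r → 0 < f r) (h2 : ∀ r ∈ Q, ¬ P r → f r < 0) :
    ∃ c : ℝ, 0 < c ∧ ∏ r ∈ Q, f r = (-1) ^ (Q.card + (Q.filter P).card) * c := by
  refine ⟨(∏ r ∈ Q.filter P, f r) * ∏ r ∈ Q.filter (fun r => ¬ P r), (- f r), ?_, ?_⟩
  · apply mul_pos
    · exact prod_pos fun r hr => h1 r (mem_filter.1 hr).1 (mem_filter.1 hr).2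
    · exact prod_pos fun r hr => by
        have := h2 r (mem_filter.1 hr).1 (mem_filter.1 hr).2
        linarith
  · rw [← prod_filter_mul_prod_filter_not Q P f, prod_neg]
    have hc := card_filter_add_card_filter_not (s := Q) P
    set a := (Q.filter P).card
    set b := (Q.filter (fun r => ¬ P r)).card
    have e : (-1 : ℝ) ^ (Q.card + a) * (-1) ^ b = 1 := by
      rw [← pow_add, ← hc]
      have : Even (a + b + a + b) := ⟨a + b, by ring⟩
      rw [this.neg_one_pow]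
    linear_combination (-(∏ r ∈ Q.filter P, f r) * (∏ r ∈ Q.filter (fun r => ¬ P r), f r)) * e

variable {p : ℕ} [Fact p.Prime]

lemma e_eq (r : ZMod p) : e p r = exp (((2 * Real.pi * r.val / p : ℝ) : ℂ) * I) := by
  have h := e_nat (p := p) r.val
  rw [ZMod.natCast_zmod_val] at h
  rw [h]
  congr 1
  push_cast
  ring

/-- the value of the product over the residues at a point of the unit circle -/
theorem S_phase (hp : p ≠ 2) (φ : ℝ) (P : ZMod p → Prop) [DecidablePred P] (H0 : ℤ)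
    (hsum : 2 * ∑ r ∈ QR p, (r.val : ℤ) = p * (((p - 1) / 2 : ℕ) - H0))
    (h1 : ∀ r ∈ QR p, P r → 0 < Real.sin ((φ - 2 * Real.pi * r.val / p) / 2))
    (h2 : ∀ r ∈ QR p, ¬ P r → Real.sin ((φ - 2 * Real.pi * r.val / p) / 2) < 0) :
    ∃ c : ℝ, 0 < c ∧ S p (exp ((φ : ℂ) * I)) =
      exp (((φ * ((p - 1) / 2 : ℕ) / 2 : ℝ) : ℂ) * I) * exp (((-(Real.pi * H0 / 2) : ℝ) : ℂ) * I)
        * (-1) ^ ((QR p).filter P).card * c := by
  have hp0 : (p : ℝ) ≠ 0 := by exact_mod_cast (Fact.out : p.Prime).ne_zero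
  obtain ⟨c, hc, hprod⟩ := prod_pos_neg (QR p)
    (fun r => 2 * Real.sin ((φ - 2 * Real.pi * r.val / p) / 2)) P
    (fun r hr h => by have := h1 r hr h; linarith) (fun r hr h => by have := h2 r hr h; linarith)
  refine ⟨c, hc, ?_⟩
  set n := (p - 1) / 2 with hn
  have hcard : (QR p).card = n := card_QR hp
  have e1 : S p (exp ((φ : ℂ) * I)) = ∏ r ∈ QR p,
      (exp ((((φ + 2 * Real.pi * r.val / p) / 2 : ℝ) : ℂ) * I)
        * (I * ((2 * Real.sin ((φ - 2 * Real.pi * r.val / p) / 2) : ℝ) : ℂ))) := by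
    rw [S]
    apply prod_congr rfl
    intro r _
    rw [e_eq, exp_sub]
  rw [e1, prod_mul_distrib, prod_mul_distrib, prod_const, ← ofReal_prod, hprod, hcard, ← exp_sum,
    ← sum_mul, ← ofReal_sum]
  have e2 : ∑ r ∈ QR p, (φ + 2 * Real.pi * r.val / p) / 2 = φ * n / 2 + Real.pi * (n - H0) / 2 := by
    have h3 : ∑ r ∈ QR p, (φ + 2 * Real.pi * r.val / p) / 2
        = (QR p).card * (φ / 2) + Real.pi / p * ∑ r ∈ QR p, (r.val : ℝ) := by
      rw [← nsmul_eq_mul, ← sum_const, mul_sum, ← sum_add_distrib]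
      apply sum_congr rfl
      intro r _
      ring
    have h4 : 2 * ∑ r ∈ QR p, (r.val : ℝ) = p * (n - H0) := by exact_mod_cast hsum
    rw [h3, hcard]
    have h5 : Real.pi / p * ∑ r ∈ QR p, (r.val : ℝ) = Real.pi * (n - H0) / 2 := by
      field_simp
      linear_combination h4
    rw [h5]; ring
  rw [e2]
  have e3 : (I : ℂ) ^ n = exp (((Real.pi * n / 2 : ℝ) : ℂ) * I) := by
    have : ((Real.pi * n / 2 : ℝ) : ℂ) * I = (n : ℂ) * (Real.pi / 2 * I) := by push_cast; ring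
    rw [this, exp_nat_mul, exp_pi_div_two_mul_I]
  have e4 : exp (((φ * n / 2 + Real.pi * (n - H0) / 2 : ℝ) : ℂ) * I) * exp (((Real.pi * n / 2 : ℝ) : ℂ) * I)
      = exp (((φ * n / 2 : ℝ) : ℂ) * I) * exp (((-(Real.pi * H0 / 2) : ℝ) : ℂ) * I) * (-1) ^ n := by
    have h6 : ((-1 : ℂ)) ^ n = exp ((n : ℂ) * (Real.pi * I)) := by
      rw [exp_nat_mul, exp_pi_mul_I]
    rw [h6, ← exp_add, ← exp_add, ← exp_add]
    congr 1
    push_cast
    ring
  rw [e3]
  push_cast at e4 ⊢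
  rw [← mul_assoc, e4]
  have e5 : (-1 : ℂ) ^ n * (-1) ^ n = 1 := by rw [← mul_pow]; simp
  rw [pow_add]
  linear_combination (exp ((φ * n / 2 : ℂ) * I) * exp ((-(Real.pi * H0 / 2) : ℂ) * I)
    * (-1) ^ ((QR p).filter P).card * c) * e5

/-- sum over all residues, `p = 1 mod 4` -/
lemma sum_QR_one (h4 : p % 4 = 1) : 2 * ∑ r ∈ QR p, (r.val : ℤ) = p * (((p - 1) / 2 : ℕ) - (0 : ℤ)) := by
  have hp : p ≠ 2 := by rintro rfl; omega
  have h1 : ∑ r ∈ QR p, (r.val : ℤ) = ∑ r ∈ QR p, (((-r : ZMod p).val : ℕ) : ℤ) := by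
    apply sum_nbij' (fun r => -r) (fun r => -r)
    · intro r hr; rw [mem_QR] at hr ⊢; rw [char_neg h4, hr]
    · intro r hr; rw [mem_QR] at hr ⊢; rw [char_neg h4, hr]
    · intro r _; exact neg_neg r
    · intro r _; exact neg_neg r
    · intro r _; rw [neg_neg]
  rw [two_mul]
  nth_rewrite 2 [h1]
  rw [← sum_add_distrib]
  have h2 : ∀ r ∈ QR p, (r.val : ℤ) + (((-r : ZMod p).val : ℕ) : ℤ) = p := by
    intro r hr
    haveI : NeZero r := ⟨ne_of_mem_QR hr⟩
    rw [ZMod.val_neg_of_ne_zero, Nat.cast_sub (ZMod.val_lt r).le]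
    ring
  rw [sum_congr rfl h2, sum_const, card_QR hp]
  simp
  ring

/-- sum over all residues, `p = 3 mod 4` -/
lemma sum_QR_three (h4 : p % 4 = 3) (h5 : 5 ≤ p) (K : Type) [Field K] [NumberField K]
    (h2 : Module.finrank ℚ K = 2) (x : K) (hx : x ^ 2 = -(p : K)) :
    2 * ∑ r ∈ QR p, (r.val : ℤ)
      = p * (((p - 1) / 2 : ℕ) - (NumberField.classNumber K : ℤ)) := by
  have hp : p ≠ 2 := by omega
  have hcn := CN.classNumber_mul h4 h5 K h2 x hx
  have hm1 : quadraticChar (ZMod p) (-1) = -1 := by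
    rw [quadraticChar_neg_one_iff_not_isSquare, ZMod.exists_sq_eq_neg_one_iff]
    omega
  have hneg : ∀ a : ZMod p, quadraticChar (ZMod p) (-a) = - quadraticChar (ZMod p) a := by
    intro a
    rw [← neg_one_mul, map_mul, hm1]; ring
  have h3 : ∑ j : ZMod p, quadraticChar (ZMod p) j * (j.val : ℤ)
      = ∑ r ∈ QR p, (r.val : ℤ) - ∑ r ∈ NR p, (r.val : ℤ) := by
    rw [QR, NR, sum_filter, sum_filter, ← sum_sub_distrib]
    apply sum_congr rfl
    intro a _
    by_cases ha : a = 0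
    · subst ha
      simp
    · rcases quadraticChar_dichotomy ha with h | h
      · rw [h, if_pos rfl, if_neg (by norm_num)]; ring
      · rw [h, if_neg (by norm_num), if_pos rfl]; ring
  have h6 : ∑ r ∈ NR p, (r.val : ℤ) = ∑ r ∈ QR p, (((-r : ZMod p).val : ℕ) : ℤ) := by
    apply sum_nbij' (fun r => -r) (fun r => -r)
    · intro r hr; rw [mem_NR] at hr; rw [mem_QR, hneg, hr]; norm_num
    · intro r hr; rw [mem_QR] at hr; rw [mem_NR, hneg, hr]
    · intro r _; exact neg_neg r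
    · intro r _; exact neg_neg r
    · intro r _; rw [neg_neg]
  have h7 : ∑ r ∈ QR p, (((-r : ZMod p).val : ℕ) : ℤ) = p * ((p - 1) / 2 : ℕ) - ∑ r ∈ QR p, (r.val : ℤ) := by
    have h8 : ∀ r ∈ QR p, (((-r : ZMod p).val : ℕ) : ℤ) = p - (r.val : ℤ) := by
      intro r hr
      haveI : NeZero r := ⟨ne_of_mem_QR hr⟩
      rw [ZMod.val_neg_of_ne_zero, Nat.cast_sub (ZMod.val_lt r).le]
    rw [sum_congr rfl h8, sum_sub_distrib, sum_const, card_QR hp]
    simp
    ring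
  rw [h3, h6, h7] at hcn
  linarith

end Pool.Agent.Q23.TW
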